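import Pool.Agent.Y503.RB.Stm

/-!
The map `push ξ`.
-/

set_option autoImplicit false

namespace Pool.Agent.Y614.RB

open scoped ContDiff RealInnerProductSpace
open Pool.Agent.Y503.RB

lemma sub_ne {ξ y : E4} (h : y ≠ ξ) : ‖y - ξ‖ ≠ 0 := norm_ne_zero_iff.2 (sub_ne_zero.2 h)

lemma inv_sub (ξ y : E4) : inv ξ y - ξ = (2 / ‖y - ξ‖ ^ 2) • (y - ξ) := by
  unfold inv
  rw [add_sub_cancel_left]

lemma inv_norm {ξ y : E4} (h : y ≠ ξ) : ‖inv ξ y - ξ‖ = 2 / ‖y - ξ‖ := by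
  have h0 := sub_ne h
  rw [inv_sub, norm_smul, Real.norm_eq_abs, abs_of_nonneg (by positivity)]
  field_simp

lemma inv_ne {ξ y : E4} (h : y ≠ ξ) : inv ξ y ≠ ξ := by
  rw [← sub_ne_zero, ← norm_ne_zero_iff, inv_norm h]
  exact div_ne_zero two_ne_zero (sub_ne h)

lemma inv_inv {ξ y : E4} (h : y ≠ ξ) : inv ξ (inv ξ y) = y := by
  have h0 := sub_ne h
  have h1 : inv ξ (inv ξ y) - ξ = y - ξ := by
    rw [inv_sub, inv_norm h, inv_sub, smul_smul]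
    have h2 : 2 / (2 / ‖y - ξ‖) ^ 2 * (2 / ‖y - ξ‖ ^ 2) = 1 := by
      field_simp
      try norm_num
    rw [h2, one_smul]
  exact sub_left_inj.1 h1

lemma sub_sq (ξ x : E4) (hξ : ‖ξ‖ = 1) : ‖x - ξ‖ ^ 2 = ‖x‖ ^ 2 + 1 - 2 * ⟪x, ξ⟫ := by
  rw [norm_sub_sq_real, hξ]
  ring

lemma inner_inv {ξ x : E4} (hξ : ‖ξ‖ = 1) (hx : x ≠ ξ) : ⟪inv ξ x, ξ⟫ = -ht ξ x := by
  have h0 := sub_ne hx
  have h1 : ⟪ξ, ξ⟫ = 1 := by rw [real_inner_self_eq_norm_sq, hξ, one_pow]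
  unfold inv ht
  rw [inner_add_left, inner_smul_left, inner_sub_left, h1]
  simp only [conj_trivial]
  have h2 := sub_sq ξ x hξ
  have h3 : ‖x - ξ‖ ^ 2 ≠ 0 := pow_ne_zero _ h0
  rw [div_mul_eq_mul_div, ← neg_div, eq_div_iff h3, add_mul, div_mul_cancel₀ _ h3, h2]
  ring

/-- the point in the hyperplane -/
lemma inner_Y {ξ x : E4} (hξ : ‖ξ‖ = 1) (hx : x ≠ ξ) : ⟪inv ξ x + ht ξ x • ξ, ξ⟫ = 0 := by
  have h1 : ⟪ξ, ξ⟫ = 1 := by rw [real_inner_self_eq_norm_sq, hξ, one_pow]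
  rw [inner_add_left, inner_smul_left, inner_inv hξ hx, h1]
  simp

lemma Y_ne {ξ Y : E4} (hξ : ‖ξ‖ = 1) (hY : ⟪Y, ξ⟫ = 0) : Y ≠ ξ := by
  rintro rfl
  rw [real_inner_self_eq_norm_sq, hξ] at hY
  norm_num at hY

lemma norm_inv_Y {ξ Y : E4} (hξ : ‖ξ‖ = 1) (hY : ⟪Y, ξ⟫ = 0) : ‖inv ξ Y‖ = 1 := by
  have hne := Y_ne hξ hY
  have h3 : ‖Y - ξ‖ ^ 2 ≠ 0 := pow_ne_zero _ (sub_ne hne)
  have h4 : ‖inv ξ Y‖ ^ 2 = 1 := by
    have h5 : ⟪ξ, Y - ξ⟫ = -1 := by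
      rw [inner_sub_right, real_inner_comm, hY, real_inner_self_eq_norm_sq, hξ]
      norm_num
    unfold inv
    rw [norm_add_sq_real, inner_smul_right, h5, hξ, norm_smul, Real.norm_eq_abs,
      abs_of_nonneg (by positivity), mul_pow, div_pow]
    field_simp
    ring
  have h5 : 0 ≤ ‖inv ξ Y‖ := norm_nonneg _
  nlinarith

lemma norm_push {ξ x : E4} (hξ : ‖ξ‖ = 1) (hx : x ≠ ξ) : ‖push ξ x‖ = Real.exp (-ht ξ x) := by
  unfold push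
  rw [norm_smul, norm_inv_Y hξ (inner_Y hξ hx), mul_one, Real.norm_eq_abs, Real.abs_exp]

lemma unit_push {ξ x : E4} (hξ : ‖ξ‖ = 1) (hx : x ≠ ξ) :
    ‖push ξ x‖⁻¹ • push ξ x = inv ξ (inv ξ x + ht ξ x • ξ) := by
  rw [norm_push hξ hx]
  unfold push
  rw [smul_smul, inv_mul_cancel₀ (Real.exp_pos _).ne', one_smul]

lemma inv_unit_push {ξ x : E4} (hξ : ‖ξ‖ = 1) (hx : x ≠ ξ) :
    inv ξ (‖push ξ x‖⁻¹ • push ξ x) + Real.log ‖push ξ x‖ • ξ = inv ξ x := by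
  rw [unit_push hξ hx, inv_inv (Y_ne hξ (inner_Y hξ hx)), norm_push hξ hx, Real.log_exp, neg_smul,
    add_neg_cancel_right]

lemma smooth_inv {ξ y : E4} (h : y ≠ ξ) : ContDiffAt ℝ ∞ (inv ξ) y := by
  unfold inv
  have h1 : ContDiffAt ℝ ∞ (fun x : E4 => x - ξ) y := contDiffAt_id.sub contDiffAt_const
  exact contDiffAt_const.add
    ((contDiffAt_const.div (h1.norm_sq ℝ) (pow_ne_zero _ (sub_ne h))).smul h1)

lemma smooth_ht {ξ y : E4} (h : y ≠ ξ) : ContDiffAt ℝ ∞ (ht ξ) y := by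
  unfold ht
  have h1 : ContDiffAt ℝ ∞ (fun x : E4 => x - ξ) y := contDiffAt_id.sub contDiffAt_const
  have h2 : ContDiffAt ℝ ∞ (fun x : E4 => ‖x‖ ^ 2) y := contDiffAt_id.norm_sq ℝ
  exact (contDiffAt_const.sub h2).div (h1.norm_sq ℝ) (pow_ne_zero _ (sub_ne h))

lemma smooth_push {ξ x : E4} (hξ : ‖ξ‖ = 1) (hx : x ≠ ξ) : ContDiffAt ℝ ∞ (push ξ) x := by
  unfold push
  have h1 : ContDiffAt ℝ ∞ (fun x : E4 => inv ξ x + ht ξ x • ξ) x :=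
    (smooth_inv hx).add ((smooth_ht hx).smul contDiffAt_const)
  have h2 : ContDiffAt ℝ ∞ (inv ξ) (inv ξ x + ht ξ x • ξ) :=
    smooth_inv (Y_ne hξ (inner_Y hξ hx))
  have h3 : ContDiffAt ℝ ∞ (inv ξ ∘ fun x : E4 => inv ξ x + ht ξ x • ξ) x :=
    ContDiffAt.comp (g := inv ξ) (f := fun x : E4 => inv ξ x + ht ξ x • ξ) x h2 h1
  exact ((smooth_ht hx).neg.exp).smul h3

lemma smooth_pull {ξ x : E4} (hξ : ‖ξ‖ = 1) (hx : x ≠ ξ) :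
    ContDiffAt ℝ ∞ (pull ξ) (push ξ x) := by
  have hw : push ξ x ≠ 0 := by
    rw [← norm_ne_zero_iff, norm_push hξ hx]
    exact (Real.exp_pos _).ne'
  have hn : ContDiffAt ℝ ∞ (fun w : E4 => ‖w‖) (push ξ x) := contDiffAt_norm ℝ hw
  have hn0 : ‖push ξ x‖ ≠ 0 := norm_ne_zero_iff.2 hw
  have h1 : ContDiffAt ℝ ∞ (fun w : E4 => ‖w‖⁻¹ • w) (push ξ x) :=
    (hn.inv hn0).smul contDiffAt_id
  have h2 : ContDiffAt ℝ ∞ (inv ξ) (‖push ξ x‖⁻¹ • push ξ x) := by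
    rw [unit_push hξ hx]
    exact smooth_inv (inv_ne (Y_ne hξ (inner_Y hξ hx)))
  have h2' : ContDiffAt ℝ ∞ (inv ξ ∘ fun w : E4 => ‖w‖⁻¹ • w) (push ξ x) :=
    ContDiffAt.comp (g := inv ξ) (f := fun w : E4 => ‖w‖⁻¹ • w) (push ξ x) h2 h1
  have h3 : ContDiffAt ℝ ∞ (fun w : E4 => inv ξ (‖w‖⁻¹ • w) + Real.log ‖w‖ • ξ) (push ξ x) :=
    h2'.add ((hn.log hn0).smul contDiffAt_const)
  have h4 : ContDiffAt ℝ ∞ (inv ξ)
      (inv ξ (‖push ξ x‖⁻¹ • push ξ x) + Real.log ‖push ξ x‖ • ξ) := by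
    rw [inv_unit_push hξ hx]
    exact smooth_inv (inv_ne hx)
  have h5 : ContDiffAt ℝ ∞
      (inv ξ ∘ fun w : E4 => inv ξ (‖w‖⁻¹ • w) + Real.log ‖w‖ • ξ) (push ξ x) :=
    ContDiffAt.comp (g := inv ξ) (f := fun w : E4 => inv ξ (‖w‖⁻¹ • w) + Real.log ‖w‖ • ξ)
      (push ξ x) h4 h3
  exact h5

theorem theta : St_THETA := by
  intro ξ hξ x hx
  refine ⟨norm_push hξ hx, ?_, ?_, smooth_push hξ hx, smooth_pull hξ hx⟩
  · intro h1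
    have h2 : ht ξ x = 0 := by
      unfold ht
      rw [h1]
      simp
    unfold push
    rw [h2, neg_zero, Real.exp_zero, one_smul, zero_smul, add_zero, inv_inv hx]
  · unfold pull
    rw [inv_unit_push hξ hx, inv_inv hx]

end Pool.Agent.Y614.RB
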