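import Pool.Agent.Y503.RB.Def2
import Pool.Agent.Y977.RB.NFT

/-!
The cone over a surface is a null set.
-/

set_option autoImplicit false

namespace Pool.Agent.Y614.RB

open scoped ContDiff RealInnerProductSpace ENNReal Topology
open MeasureTheory Set Metric Pool.Agent.Y503.RB

theorem cone_of (hNu : St_NULL) : St_CONE := by
  intro F hF
  choose φ U V hB hVo hpV hFV using hF.loc
  obtain ⟨t, ht⟩ := hF.compact.elim_nhds_subcover' V fun p hp => (hVo p hp).mem_nhds (hpV p hp)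
  have h1 : {y : E4 | ∃ r : ℝ, ∃ p ∈ F, y = r • p} ⊆
      ⋃ x ∈ t, {y : E4 | ∃ r : ℝ, ∃ z ∈ U x.1 x.2, y = r • φ x.1 x.2 z} := by
    rintro y ⟨r, p, hp, rfl⟩
    obtain ⟨x, hx, hpx⟩ := mem_iUnion₂.1 (ht hp)
    have h2 : p ∈ F ∩ V x.1 x.2 := ⟨hp, hpx⟩
    rw [hFV] at h2
    obtain ⟨⟨z, hz, hzp⟩, -⟩ := h2
    exact mem_iUnion₂.2 ⟨x, hx, r, z, hz, by rw [hzp]⟩
  refine measure_mono_null h1 ?_
  exact (measure_biUnion_null_iff t.countable_toSet).2 fun x _ =>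
    hNu (φ x.1 x.2) (U x.1 x.2) (hB x.1 x.2).isOpen (hB x.1 x.2).smooth

theorem cone : St_CONE := cone_of Pool.Agent.Y977.RB.null

end Pool.Agent.Y614.RB
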